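import Pool.Agent.Helper60.SX.Step

set_option autoImplicit false

/-!
# Strong edge colouring: the whole process with palettes (MP_7b9cc4_co)
-/

namespace Pool.Agent.Helper60.SX

open Finset
open scoped Classical

variable {V : Type} [Fintype V]

/-- The edge `xy` is coloured in the `K`-th colouring. -/
def Cov (Dm : Finset V) (p : V → V) (c : ℕ → V → ℕ) (K : ℕ) (x y : V) : Prop :=
  (x ∈ Dm ∧ p x = y ∧ c K x < K) ∨ (y ∈ Dm ∧ p y = x ∧ c K y < K)

/-- The weight of the palette with `K` colours: `3` for `K = 2D - 1`, and `2` otherwise. -/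
def wt (D K : ℕ) : ℕ := if K + 1 = 2 * D then 3 else 2

/-- The weighted number of the colourings in which `xy` is coloured. -/
noncomputable def cnt (D : ℕ) (Dm : Finset V) (p : V → V) (c : ℕ → V → ℕ) (x y : V) : ℕ :=
  ∑ K ∈ range (2 * D), if Cov Dm p c K x y then wt D K else 0

theorem wt_sum (D s : ℕ) (hs : s + 1 ≤ 2 * D) : ∑ K ∈ Ico s (2 * D), wt D K + 2 * s = 4 * D + 1 := by
  obtain ⟨m, hm⟩ : ∃ m, 2 * D = s + 1 + m := ⟨2 * D - (s + 1), by omega⟩
  have h1 : 2 * D = (s + m) + 1 := by omega
  rw [h1, sum_Ico_succ_top (by omega)]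
  have h2 : ∀ K ∈ Ico s (s + m), wt D K = 2 := by
    intro K hK
    rw [mem_Ico] at hK
    unfold wt
    rw [if_neg (by omega)]
  rw [sum_congr rfl h2, sum_const, Nat.card_Ico, smul_eq_mul]
  have h3 : wt D (s + m) = 3 := by
    unfold wt
    rw [if_pos (by omega)]
  rw [h3]
  omega

omit [Fintype V] in
theorem cnt_ge (D : ℕ) (Dm : Finset V) (p : V → V) (c : ℕ → V → ℕ) (x y : V) (s : ℕ)
    (hs : s + 1 ≤ 2 * D) (h : ∀ K, s ≤ K → Cov Dm p c K x y) :
    4 * D + 1 ≤ cnt D Dm p c x y + 2 * s := by
  rw [← wt_sum D s hs]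
  apply Nat.add_le_add_right
  unfold cnt
  have h1 : ∑ K ∈ Ico s (2 * D), wt D K =
      ∑ K ∈ Ico s (2 * D), if Cov Dm p c K x y then wt D K else 0 := by
    apply sum_congr rfl
    intro K hK
    rw [if_pos (h K (mem_Ico.1 hK).1)]
  rw [h1]
  apply sum_le_sum_of_subset
  intro K hK
  exact mem_range.2 (mem_Ico.1 hK).2

/-- The sum of the gains. -/
theorem gain (G : SimpleGraph V) (D : ℕ) (hdeg : ∀ x, (nb G x).card ≤ D) {U Dm : Finset V}
    (h : Disjoint U Dm) {x y : V} (hx : x ∈ U) (hy : y ∈ U) (hxy : G.Adj x y) :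
    3 * (U.card : ℝ) ≤ ∑ z ∈ U, (if z = x then
        4 * (D : ℝ) - 2 * ((nb G x ∩ Dm).card + (nb G y ∩ Dm).card) - (nb G x ∩ U).card else
      if z = y then
        4 * (D : ℝ) - 2 * ((nb G y ∩ Dm).card + (nb G x ∩ Dm).card) - (nb G y ∩ U).card else
      if z ∈ nb G x ∪ nb G y then 0 else 3) := by
  set A : ℝ := 4 * (D : ℝ) - 2 * ((nb G x ∩ Dm).card + (nb G y ∩ Dm).card) - (nb G x ∩ U).card
    with hA
  set B : ℝ := 4 * (D : ℝ) - 2 * ((nb G y ∩ Dm).card + (nb G x ∩ Dm).card) - (nb G y ∩ U).card
    with hB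
  have h1 : ∀ z ∈ U, (if z = x then A else if z = y then B else
      if z ∈ nb G x ∪ nb G y then (0 : ℝ) else 3) =
      (if z = x then A else 0) + (if z = y then B else 0)
        + (if z ∈ nb G x ∪ nb G y then (0 : ℝ) else 3) := by
    intro z _
    have hxn : x ∈ nb G x ∪ nb G y := mem_union_right _ ((mem_nb G y x).2 hxy.symm)
    have hyn : y ∈ nb G x ∪ nb G y := mem_union_left _ ((mem_nb G x y).2 hxy)
    by_cases hzx : z = x
    · have hzy : z ≠ y := fun h => hxy.ne (hzx.symm.trans h)
      rw [if_pos hzx, if_pos hzx, if_neg hzy, if_pos (hzx ▸ hxn)]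
      ring
    · rw [if_neg hzx, if_neg hzx]
      by_cases hzy : z = y
      · rw [if_pos hzy, if_pos hzy, if_pos (hzy ▸ hyn)]
        ring
      · rw [if_neg hzy, if_neg hzy]
        ring
  rw [sum_congr rfl h1, sum_add_distrib, sum_add_distrib]
  have h2 : ∑ z ∈ U, (if z = x then A else 0) = A := by
    rw [sum_ite_eq' U x, if_pos hx]
  have h3 : ∑ z ∈ U, (if z = y then B else 0) = B := by
    rw [sum_ite_eq' U y, if_pos hy]
  have h4 : ∑ z ∈ U, (if z ∈ nb G x ∪ nb G y then (0 : ℝ) else 3) =
      3 * ((U.filter (fun z => ¬ z ∈ nb G x ∪ nb G y)).card : ℝ) := by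
    rw [card_filter]
    push_cast
    rw [mul_sum]
    apply sum_congr rfl
    intro z _
    by_cases hz : z ∈ nb G x ∪ nb G y
    · rw [if_pos hz, if_neg (not_not.2 hz), mul_zero]
    · rw [if_neg hz, if_pos hz, mul_one]
  rw [h2, h3, h4]
  have h5 := card_filter_add_card_filter_not (s := U) (fun z => z ∈ nb G x ∪ nb G y)
  have h6 : (U.filter (fun z => z ∈ nb G x ∪ nb G y)).card ≤
      (nb G x ∩ U).card + (nb G y ∩ U).card := by
    refine le_trans (card_le_card ?_) (card_union_le _ _)
    intro z hz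
    rw [mem_filter, mem_union] at hz
    rw [mem_union, mem_inter, mem_inter]
    tauto
  have h7 : (nb G x ∩ U).card + (nb G x ∩ Dm).card ≤ D := (nb_split G h x).trans (hdeg x)
  have h8 : (nb G y ∩ U).card + (nb G y ∩ Dm).card ≤ D := (nb_split G h y).trans (hdeg y)
  have h5' : ((U.filter (fun z => z ∈ nb G x ∪ nb G y)).card : ℝ) +
      ((U.filter (fun z => ¬ z ∈ nb G x ∪ nb G y)).card : ℝ) = (U.card : ℝ) := by
    exact_mod_cast h5
  have h6' : ((U.filter (fun z => z ∈ nb G x ∪ nb G y)).card : ℝ) ≤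
      ((nb G x ∩ U).card : ℝ) + ((nb G y ∩ U).card : ℝ) := by
    exact_mod_cast h6
  have h7' : ((nb G x ∩ U).card : ℝ) + ((nb G x ∩ Dm).card : ℝ) ≤ D := by exact_mod_cast h7
  have h8' : ((nb G y ∩ U).card : ℝ) + ((nb G y ∩ Dm).card : ℝ) ≤ D := by exact_mod_cast h8
  rw [hA, hB]
  linarith

/-- The order of the vertices dominated by `z`: a fixed one, or its reverse. -/
noncomputable def pos (T : Finset V) (b : Bool) (y : V) : ℕ :=
  if h : y ∈ T then
    (if b then (T.equivFin ⟨y, h⟩ : ℕ) + 1 else T.card - (T.equivFin ⟨y, h⟩ : ℕ)) else 0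

omit [Fintype V] in
theorem pos_pos (T : Finset V) (b : Bool) : ∀ y ∈ T, 1 ≤ pos T b y := by
  intro y hy
  unfold pos
  rw [dif_pos hy]
  have := (T.equivFin ⟨y, hy⟩).2
  cases b <;> simp <;> omega

omit [Fintype V] in
theorem pos_le (T : Finset V) (b : Bool) (y : V) : pos T b y ≤ T.card := by
  unfold pos
  by_cases hy : y ∈ T
  · rw [dif_pos hy]
    have := (T.equivFin ⟨y, hy⟩).2
    cases b <;> simp <;> omega
  · rw [dif_neg hy]
    exact Nat.zero_le _

omit [Fintype V] in
theorem pos_inj (T : Finset V) (b : Bool) : ∀ y ∈ T, ∀ y' ∈ T, pos T b y = pos T b y' → y = y' := by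
  intro y hy y' hy' h
  unfold pos at h
  rw [dif_pos hy, dif_pos hy'] at h
  have h1 := (T.equivFin ⟨y, hy⟩).2
  have h2 := (T.equivFin ⟨y', hy'⟩).2
  have h3 : (T.equivFin ⟨y, hy⟩ : ℕ) = (T.equivFin ⟨y', hy'⟩ : ℕ) := by
    cases b <;> simp at h <;> omega
  have h4 := T.equivFin.injective (Fin.ext h3)
  exact congrArg Subtype.val h4

omit [Fintype V] in
theorem pos_add (T : Finset V) : ∀ y ∈ T, pos T true y + pos T false y = T.card + 1 := by
  intro y hy
  unfold pos
  rw [dif_pos hy, dif_pos hy]
  have := (T.equivFin ⟨y, hy⟩).2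
  simp only [if_true, Bool.false_eq_true, if_false]
  omega

/-- The whole process. -/
theorem run (G : SimpleGraph V) (D : ℕ) (hdeg : ∀ x, (nb G x).card ≤ D) : ∀ (n : ℕ)
    (U Dm : Finset V) (p : V → V) (c : ℕ → V → ℕ), U.card ≤ n → St G U Dm p c →
    ∃ (Om : Type) (_ : Fintype Om) (q : Om → ℝ) (P : Om → V → V) (Df : Om → Finset V)
      (C : Om → ℕ → V → ℕ), (∀ o, 0 ≤ q o) ∧ ∑ o, q o = 1 ∧
      (∀ o, St G ∅ (Df o) (P o) (C o) ∧ Dm ⊆ Df o ∧ (∀ y ∈ Dm, P o y = p y) ∧
        ∀ K, ∀ y ∈ Dm, C o K y = c K y) ∧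
      ∀ x ∈ U, ∀ y ∈ U, G.Adj x y → 3 ≤ ∑ o, q o * (cnt D (Df o) (P o) (C o) x y : ℝ) := by
  intro n
  induction n with
  | zero =>
    intro U Dm p c hU hst
    have hU' : U = ∅ := card_eq_zero.1 (Nat.le_zero.1 hU)
    subst hU'
    refine ⟨Unit, inferInstance, fun _ => 1, fun _ => p, fun _ => Dm, fun _ => c,
      fun _ => zero_le_one, by simp, ?_, ?_⟩
    · intro _
      exact ⟨hst, Subset.refl _, fun _ _ => rfl, fun _ _ _ => rfl⟩
    · intro x hx
      exact absurd hx (notMem_empty x)
  | succ n ih =>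
    intro U Dm p c hU hst
    rcases U.eq_empty_or_nonempty with hU' | hne
    · subst hU'
      refine ⟨Unit, inferInstance, fun _ => 1, fun _ => p, fun _ => Dm, fun _ => c,
        fun _ => zero_le_one, by simp, ?_, ?_⟩
      · intro _
        exact ⟨hst, Subset.refl _, fun _ _ => rfl, fun _ _ _ => rfl⟩
      · intro x hx
        exact absurd hx (notMem_empty x)
    · have hcase : ∀ zb : {z // z ∈ U} × Bool, ∃ (Om : Type) (_ : Fintype Om) (q : Om → ℝ)
          (P : Om → V → V) (Df : Om → Finset V) (C : Om → ℕ → V → ℕ), (∀ o, 0 ≤ q o) ∧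
          ∑ o, q o = 1 ∧
          (∀ o, St G ∅ (Df o) (P o) (C o) ∧ Dm ⊆ Df o ∧ (∀ y ∈ Dm, P o y = p y) ∧
            ∀ K, ∀ y ∈ Dm, C o K y = c K y) ∧
          ∀ x ∈ U, ∀ y ∈ U, G.Adj x y → (if zb.1.1 = x then
              4 * (D : ℝ) + 1 - 2 * ((nb G x ∩ Dm).card + (nb G y ∩ Dm).card
                + pos (nb G x ∩ U) zb.2 y) else
            if zb.1.1 = y then
              4 * (D : ℝ) + 1 - 2 * ((nb G y ∩ Dm).card + (nb G x ∩ Dm).card
                + pos (nb G y ∩ U) zb.2 x) else
            if zb.1.1 ∈ nb G x ∪ nb G y then 0 else 3) ≤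
            ∑ o, q o * (cnt D (Df o) (P o) (C o) x y : ℝ) := by
        rintro ⟨⟨z, hz⟩, b⟩
        obtain ⟨p', c', hst', hpD, hcD, hpT, hcT⟩ := step G hst hz (pos (nb G z ∩ U) b)
          (pos_pos _ b) (pos_inj _ b)
        have hcard : (U \ insert z (nb G z)).card ≤ n := by
          have hss : U \ insert z (nb G z) ⊂ U := by
            refine ⟨sdiff_subset, fun hcon => ?_⟩
            exact (mem_sdiff.1 (hcon hz)).2 (mem_insert_self _ _)
          have := card_lt_card hss
          omega
        obtain ⟨Om, fOm, q, P, Df, C, hq0, hq1, hall, hcnt⟩ := ih _ _ _ _ hcard hst'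
        refine ⟨Om, fOm, q, P, Df, C, hq0, hq1, ?_, ?_⟩
        · intro o
          obtain ⟨h1, h2, h3, h4⟩ := hall o
          refine ⟨h1, subset_union_left.trans h2, ?_, ?_⟩
          · intro y hy
            rw [h3 y (mem_union_left _ hy), hpD y hy]
          · intro K y hy
            rw [h4 K y (mem_union_left _ hy), hcD K y hy]
        · intro x hx y hy hxy
          -- an arc created now stays
          have harc : ∀ v ∈ nb G z ∩ U, ∀ o, v ∈ Df o ∧ P o v = z ∧
              ∀ K, (nb G z ∩ Dm).card + (nb G v ∩ Dm).card + pos (nb G z ∩ U) b v ≤ K →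
                C o K v < K := by
            intro v hv o
            obtain ⟨h1, h2, h3, h4⟩ := hall o
            refine ⟨h2 (mem_union_right _ hv), ?_, ?_⟩
            · rw [h3 v (mem_union_right _ hv), hpT v hv]
            · intro K hK
              rw [h4 K v (mem_union_right _ hv)]
              exact hcT v hv K hK
          -- the gain of such an arc
          have hgain : ∀ v ∈ nb G z ∩ U, ∀ x' y' : V, (∀ o, ∀ K,
              (nb G z ∩ Dm).card + (nb G v ∩ Dm).card + pos (nb G z ∩ U) b v ≤ K →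
              Cov (Df o) (P o) (C o) K x' y') →
              4 * (D : ℝ) + 1 - 2 * ((nb G z ∩ Dm).card + (nb G v ∩ Dm).card
                + pos (nb G z ∩ U) b v) ≤ ∑ o, q o * (cnt D (Df o) (P o) (C o) x' y' : ℝ) := by
            intro v hv x' y' hcov
            have hs : (nb G z ∩ Dm).card + (nb G v ∩ Dm).card + pos (nb G z ∩ U) b v + 1 ≤
                2 * D := by
              have h1 := (nb_split G hst.disj z).trans (hdeg z)
              have h2 := (nb_split G hst.disj v).trans (hdeg v)
              have h3 := pos_le (nb G z ∩ U) b v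
              have h4 : 0 < (nb G v ∩ U).card := by
                rw [card_pos]
                exact ⟨z, mem_inter.2 ⟨(mem_nb G v z).2
                  ((mem_nb G z v).1 (mem_inter.1 hv).1).symm, hz⟩⟩
              omega
            have h5 : ∀ o, 4 * (D : ℝ) + 1 - 2 * ((nb G z ∩ Dm).card + (nb G v ∩ Dm).card
                + pos (nb G z ∩ U) b v) ≤ (cnt D (Df o) (P o) (C o) x' y' : ℝ) := by
              intro o
              have h6 := cnt_ge D (Df o) (P o) (C o) x' y' _ hs (hcov o)
              have h7 : ((4 * D + 1 : ℕ) : ℝ) ≤ ((cnt D (Df o) (P o) (C o) x' y' +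
                2 * ((nb G z ∩ Dm).card + (nb G v ∩ Dm).card + pos (nb G z ∩ U) b v) : ℕ) : ℝ) :=
                Nat.cast_le.2 h6
              push_cast at h7
              linarith
            calc 4 * (D : ℝ) + 1 - 2 * ((nb G z ∩ Dm).card + (nb G v ∩ Dm).card
                + pos (nb G z ∩ U) b v) = ∑ o, q o * (4 * (D : ℝ) + 1 -
                  2 * ((nb G z ∩ Dm).card + (nb G v ∩ Dm).card + pos (nb G z ∩ U) b v)) := by
                  rw [← sum_mul, hq1, one_mul]
              _ ≤ _ := sum_le_sum (fun o _ => mul_le_mul_of_nonneg_left (h5 o) (hq0 o))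
          show (if z = x then _ else if z = y then _ else
            if z ∈ nb G x ∪ nb G y then (0 : ℝ) else 3) ≤ _
          by_cases hzx : z = x
          · rw [if_pos hzx]
            subst hzx
            have hyT : y ∈ nb G z ∩ U := mem_inter.2 ⟨(mem_nb G z y).2 hxy, hy⟩
            apply hgain y hyT z y
            intro o K hK
            obtain ⟨h1, h2, h3⟩ := harc y hyT o
            exact Or.inr ⟨h1, h2, h3 K hK⟩
          · rw [if_neg hzx]
            by_cases hzy : z = y
            · rw [if_pos hzy]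
              subst hzy
              have hxT : x ∈ nb G z ∩ U := mem_inter.2 ⟨(mem_nb G z x).2 hxy.symm, hx⟩
              apply hgain x hxT x z
              intro o K hK
              obtain ⟨h1, h2, h3⟩ := harc x hxT o
              exact Or.inl ⟨h1, h2, h3 K hK⟩
            · rw [if_neg hzy]
              by_cases hzn : z ∈ nb G x ∪ nb G y
              · rw [if_pos hzn]
                exact sum_nonneg (fun o _ => mul_nonneg (hq0 o) (Nat.cast_nonneg _))
              · rw [if_neg hzn]
                rw [mem_union, not_or, mem_nb, mem_nb] at hzn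
                apply hcnt x _ y _ hxy
                · rw [mem_sdiff, mem_insert, not_or, mem_nb]
                  exact ⟨hx, fun h => hzx h.symm, fun h => hzn.1 h.symm⟩
                · rw [mem_sdiff, mem_insert, not_or, mem_nb]
                  exact ⟨hy, fun h => hzy h.symm, fun h => hzn.2 h.symm⟩
      choose Om fOm q P Df C hq0 hq1 hall hcnt using hcase
      have hU0 : (0 : ℝ) < U.card := by exact_mod_cast card_pos.2 hne
      refine ⟨Σ zb : {z // z ∈ U} × Bool, Om zb, inferInstance,
        fun o => q o.1 o.2 / (2 * U.card), fun o => P o.1 o.2,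
        fun o => Df o.1 o.2, fun o => C o.1 o.2, ?_, ?_, fun o => hall o.1 o.2, ?_⟩
      · intro o
        exact div_nonneg (hq0 _ _) (by positivity)
      · rw [Fintype.sum_sigma]
        have h1 : ∀ zb : {z // z ∈ U} × Bool, ∑ o : Om zb, q zb o / (2 * (U.card : ℝ)) =
            1 / (2 * U.card) := by
          intro zb
          rw [← sum_div, hq1]
        rw [sum_congr rfl (fun zb _ => h1 zb), sum_const, card_univ, Fintype.card_prod,
          Fintype.card_coe, Fintype.card_bool, nsmul_eq_mul]
        push_cast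
        field_simp
      · intro x hx y hy hxy
        rw [Fintype.sum_sigma]
        have h1 : ∀ zb : {z // z ∈ U} × Bool, (if zb.1.1 = x then
              4 * (D : ℝ) + 1 - 2 * ((nb G x ∩ Dm).card + (nb G y ∩ Dm).card
                + pos (nb G x ∩ U) zb.2 y) else
            if zb.1.1 = y then
              4 * (D : ℝ) + 1 - 2 * ((nb G y ∩ Dm).card + (nb G x ∩ Dm).card
                + pos (nb G y ∩ U) zb.2 x) else
            if zb.1.1 ∈ nb G x ∪ nb G y then 0 else 3) / (2 * U.card) ≤
            ∑ o : Om zb, q zb o / (2 * U.card) *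
              (cnt D (Df zb o) (P zb o) (C zb o) x y : ℝ) := by
          intro zb
          have h2 : ∑ o : Om zb, q zb o / (2 * U.card) *
              (cnt D (Df zb o) (P zb o) (C zb o) x y : ℝ) =
              (∑ o : Om zb, q zb o * (cnt D (Df zb o) (P zb o) (C zb o) x y : ℝ)) /
                (2 * U.card) := by
            rw [sum_div]
            apply sum_congr rfl
            intro o _
            ring
          rw [h2]
          exact div_le_div_of_nonneg_right (hcnt zb x hx y hy hxy) (by positivity)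
        refine le_trans ?_ (sum_le_sum (fun zb _ => h1 zb))
        rw [← sum_div, le_div_iff₀ (by positivity), Fintype.sum_prod_type]
        have h3 : ∀ z : {z // z ∈ U}, ∑ b : Bool, (if z.1 = x then
              4 * (D : ℝ) + 1 - 2 * ((nb G x ∩ Dm).card + (nb G y ∩ Dm).card
                + pos (nb G x ∩ U) b y) else
            if z.1 = y then
              4 * (D : ℝ) + 1 - 2 * ((nb G y ∩ Dm).card + (nb G x ∩ Dm).card
                + pos (nb G y ∩ U) b x) else
            if z.1 ∈ nb G x ∪ nb G y then 0 else 3) = 2 * (if z.1 = x then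
        4 * (D : ℝ) - 2 * ((nb G x ∩ Dm).card + (nb G y ∩ Dm).card) - (nb G x ∩ U).card else
      if z.1 = y then
        4 * (D : ℝ) - 2 * ((nb G y ∩ Dm).card + (nb G x ∩ Dm).card) - (nb G y ∩ U).card else
      if z.1 ∈ nb G x ∪ nb G y then 0 else 3) := by
          intro z
          rw [Fintype.sum_bool]
          have h4 : ((pos (nb G x ∩ U) true y : ℕ) : ℝ) + (pos (nb G x ∩ U) false y : ℕ) =
              (nb G x ∩ U).card + 1 := by
            exact_mod_cast pos_add (nb G x ∩ U) y (mem_inter.2 ⟨(mem_nb G x y).2 hxy, hy⟩)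
          have h5 : ((pos (nb G y ∩ U) true x : ℕ) : ℝ) + (pos (nb G y ∩ U) false x : ℕ) =
              (nb G y ∩ U).card + 1 := by
            exact_mod_cast pos_add (nb G y ∩ U) x (mem_inter.2 ⟨(mem_nb G y x).2 hxy.symm, hx⟩)
          by_cases hzx : z.1 = x
          · rw [if_pos hzx, if_pos hzx, if_pos hzx]
            linarith
          · rw [if_neg hzx, if_neg hzx, if_neg hzx]
            by_cases hzy : z.1 = y
            · rw [if_pos hzy, if_pos hzy, if_pos hzy]
              linarith
            · rw [if_neg hzy, if_neg hzy, if_neg hzy]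
              ring
        rw [sum_congr rfl (fun z _ => h3 z), ← mul_sum]
        have h6 := gain G D hdeg hst.disj hx hy hxy
        rw [← sum_coe_sort U] at h6
        linarith

end Pool.Agent.Helper60.SX
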