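import Mathlib

set_option autoImplicit false

/-!
# Strong edge colouring: one step of the greedy process with palettes (MP_7b9cc4_co)
-/

namespace Pool.Agent.Helper60.SX

open Finset
open scoped Classical

variable {V : Type} [Fintype V]

/-- The neighbours of `x`. -/
noncomputable def nb (G : SimpleGraph V) (x : V) : Finset V := univ.filter (fun y => G.Adj x y)

theorem mem_nb (G : SimpleGraph V) (x y : V) : y ∈ nb G x ↔ G.Adj x y := by
  simp [nb]

/-- The state of the process: `U` is the set of undominated vertices, `Dm` the set of dominated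
vertices, `p y` the centre which dominates `y`, and `c K y` the colour of the arc `(p y, y)` in the
`K`-th colouring, the arc being uncoloured if `K ≤ c K y`. -/
structure St (G : SimpleGraph V) (U Dm : Finset V) (p : V → V) (c : ℕ → V → ℕ) :
    Prop where
  disj : Disjoint U Dm
  adj : ∀ y ∈ Dm, G.Adj (p y) y ∧ p y ∉ U ∧ p y ∉ Dm
  far : ∀ y ∈ Dm, ∀ u ∈ U, ¬ G.Adj (p y) u
  ind : ∀ y ∈ Dm, ∀ y' ∈ Dm, ¬ G.Adj (p y) (p y')
  col : ∀ K, ∀ y ∈ Dm, ∀ y' ∈ Dm, y ≠ y' → c K y = c K y' → c K y < K →
    p y ≠ p y' ∧ ¬ G.Adj y y' ∧ ¬ G.Adj (p y) y' ∧ ¬ G.Adj (p y') y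

omit [Fintype V] in
/-- Greedy colouring in the order given by `pos`. -/
theorem greedy (K : ℕ) (T : Finset V) (pos : V → ℕ) (hpos : ∀ y ∈ T, 1 ≤ pos y)
    (hinj : ∀ y ∈ T, ∀ y' ∈ T, pos y = pos y' → y = y') (B : V → Finset ℕ)
    (h : ∀ y ∈ T, (B y).card + pos y ≤ K) :
    ∃ g : V → ℕ, (∀ y ∈ T, g y < K ∧ g y ∉ B y) ∧
      ∀ y ∈ T, ∀ y' ∈ T, y ≠ y' → g y ≠ g y' := by
  have key : ∀ n, ∃ g : V → ℕ, (∀ y ∈ T, pos y ≤ n → g y < K ∧ g y ∉ B y) ∧
      ∀ y ∈ T, ∀ y' ∈ T, pos y ≤ n → pos y' ≤ n → y ≠ y' → g y ≠ g y' := by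
    intro n
    induction n with
    | zero =>
      refine ⟨fun _ => 0, fun y hy h0 => ?_, fun y hy y' _ h0 => ?_⟩
      · have := hpos y hy
        omega
      · have := hpos y hy
        omega
    | succ n ih =>
      obtain ⟨g, h1, h2⟩ := ih
      by_cases ha : ∃ a ∈ T, pos a = n + 1
      · obtain ⟨a, haT, hapos⟩ := ha
        have hcard : (T.filter (fun y => pos y ≤ n)).card ≤ n := by
          have h3 : (T.filter (fun y => pos y ≤ n)).card ≤ (Icc 1 n).card := by
            apply card_le_card_of_injOn pos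
            · intro y hy
              have hy' := mem_filter.1 (mem_coe.1 hy)
              exact mem_coe.2 (mem_Icc.2 ⟨hpos y hy'.1, hy'.2⟩)
            · intro y hy y' hy' hh
              have hy1 := mem_filter.1 (mem_coe.1 hy)
              have hy1' := mem_filter.1 (mem_coe.1 hy')
              exact hinj y hy1.1 y' hy1'.1 hh
          simpa using h3
        have h3 : (B a ∪ (T.filter (fun y => pos y ≤ n)).image g).card < (range K).card := by
          have h6 := h a haT
          have h4 := card_union_le (B a) ((T.filter (fun y => pos y ≤ n)).image g)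
          have h5 : ((T.filter (fun y => pos y ≤ n)).image g).card ≤
            (T.filter (fun y => pos y ≤ n)).card := card_image_le
          rw [card_range]
          omega
        obtain ⟨k, hk, hk2⟩ := exists_mem_notMem_of_card_lt_card h3
        rw [mem_union, not_or] at hk2
        have hle : ∀ y ∈ T, pos y ≤ n + 1 → y ≠ a → pos y ≤ n := by
          intro y hy hyn hya
          rcases Nat.lt_or_ge (pos y) (n + 1) with h7 | h7
          · omega
          · exact absurd (hinj y hy a haT (by omega)) hya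
        refine ⟨fun y => if y = a then k else g y, ?_, ?_⟩
        · intro y hy hyn
          by_cases hya : y = a
          · simp only [if_pos hya, hya]
            exact ⟨mem_range.1 hk, hk2.1⟩
          · simp only [if_neg hya]
            exact h1 y hy (hle y hy hyn hya)
        · intro y hy y' hy' hyn hyn' hne
          by_cases hya : y = a
          · have hya' : y' ≠ a := fun h => hne (hya.trans h.symm)
            simp only [if_pos hya, if_neg hya']
            intro hkk
            exact hk2.2 (mem_image.2 ⟨y', mem_filter.2 ⟨hy', hle y' hy' hyn' hya'⟩, hkk.symm⟩)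
          · by_cases hya' : y' = a
            · simp only [if_pos hya', if_neg hya]
              intro hkk
              exact hk2.2 (mem_image.2 ⟨y, mem_filter.2 ⟨hy, hle y hy hyn hya⟩, hkk⟩)
            · simp only [if_neg hya, if_neg hya']
              exact h2 y hy y' hy' (hle y hy hyn hya) (hle y' hy' hyn' hya') hne
      · have hle : ∀ y ∈ T, pos y ≤ n + 1 → pos y ≤ n := by
          intro y hy hyn
          rcases Nat.lt_or_ge (pos y) (n + 1) with h7 | h7
          · omega
          · exact absurd ⟨y, hy, by omega⟩ ha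
        exact ⟨g, fun y hy hyn => h1 y hy (hle y hy hyn),
          fun y hy y' hy' hyn hyn' => h2 y hy y' hy' (hle y hy hyn) (hle y' hy' hyn')⟩
  obtain ⟨g, h1, h2⟩ := key (T.sup pos)
  exact ⟨g, fun y hy => h1 y hy (le_sup hy),
    fun y hy y' hy' => h2 y hy y' hy' (le_sup hy) (le_sup hy')⟩

theorem nb_split (G : SimpleGraph V) {U Dm : Finset V} (h : Disjoint U Dm) (x : V) :
    (nb G x ∩ U).card + (nb G x ∩ Dm).card ≤ (nb G x).card := by
  rw [← card_union_of_disjoint]
  · exact card_le_card (union_subset inter_subset_left inter_subset_left)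
  · exact disjoint_of_subset_left inter_subset_right
      (disjoint_of_subset_right inter_subset_right h)

/-- One step: the centre `z`, with the vertices dominated by it in the order `pos`. -/
theorem step (G : SimpleGraph V) {U Dm : Finset V}
    {p : V → V} {c : ℕ → V → ℕ} (h : St G U Dm p c) {z : V} (hz : z ∈ U) (pos : V → ℕ)
    (hpos : ∀ y ∈ nb G z ∩ U, 1 ≤ pos y)
    (hinj : ∀ y ∈ nb G z ∩ U, ∀ y' ∈ nb G z ∩ U, pos y = pos y' → y = y') :
    ∃ (p' : V → V) (c' : ℕ → V → ℕ),
      St G (U \ insert z (nb G z)) (Dm ∪ (nb G z ∩ U)) p' c' ∧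
      (∀ y ∈ Dm, p' y = p y) ∧ (∀ K, ∀ y ∈ Dm, c' K y = c K y) ∧
      (∀ y ∈ nb G z ∩ U, p' y = z) ∧
      ∀ y ∈ nb G z ∩ U, ∀ K, (nb G z ∩ Dm).card + (nb G y ∩ Dm).card + pos y ≤ K →
        c' K y < K := by
  set T : Finset V := nb G z ∩ U with hT
  have hTU : ∀ y ∈ T, y ∈ U := fun y hy => (mem_inter.1 hy).2
  have hTz : ∀ y ∈ T, G.Adj z y := fun y hy => (mem_nb G z y).1 (mem_inter.1 hy).1
  have hTD : ∀ y ∈ T, y ∉ Dm := fun y hy => disjoint_left.1 h.disj (hTU y hy)
  have hzD : z ∉ Dm := disjoint_left.1 h.disj hz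
  let TK : ℕ → Finset V := fun K =>
    T.filter (fun y => (nb G z ∩ Dm).card + (nb G y ∩ Dm).card + pos y ≤ K)
  let B : ℕ → V → Finset ℕ := fun K y => ((nb G z ∩ Dm) ∪ (nb G y ∩ Dm)).image (c K)
  have hgr : ∀ K, ∃ g : V → ℕ, (∀ y ∈ TK K, g y < K ∧ g y ∉ B K y) ∧
      ∀ y ∈ TK K, ∀ y' ∈ TK K, y ≠ y' → g y ≠ g y' := by
    intro K
    apply greedy K (TK K) pos
    · intro y hy
      exact hpos y (mem_filter.1 hy).1
    · intro y hy y' hy'
      exact hinj y (mem_filter.1 hy).1 y' (mem_filter.1 hy').1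
    · intro y hy
      have hy' := (mem_filter.1 hy).2
      have h1 : (B K y).card ≤ (nb G z ∩ Dm).card + (nb G y ∩ Dm).card :=
        card_image_le.trans (card_union_le _ _)
      omega
  choose g hg1 hg2 using hgr
  let p' : V → V := fun y => if y ∈ T then z else p y
  let c' : ℕ → V → ℕ := fun K y => if y ∈ TK K then g K y else if y ∈ Dm then c K y else K
  have hpT : ∀ y ∈ T, p' y = z := fun y hy => if_pos hy
  have hpD : ∀ y ∈ Dm, p' y = p y := fun y hy => if_neg (fun hy' => hTD y hy' hy)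
  have hcD : ∀ K, ∀ y ∈ Dm, c' K y = c K y := by
    intro K y hy
    have : y ∉ TK K := fun hy' => hTD y (mem_filter.1 hy').1 hy
    show (if y ∈ TK K then g K y else if y ∈ Dm then c K y else K) = c K y
    rw [if_neg this, if_pos hy]
  have hcT : ∀ K, ∀ y ∈ TK K, c' K y = g K y := fun K y hy => if_pos hy
  have hcN : ∀ K, ∀ y ∈ T, y ∉ TK K → c' K y = K := by
    intro K y hy hy'
    show (if y ∈ TK K then g K y else if y ∈ Dm then c K y else K) = K
    rw [if_neg hy', if_neg (hTD y hy)]
  -- a new arc against an old one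
  have hno : ∀ K, ∀ y ∈ Dm, ∀ y' ∈ T, c' K y = c' K y' → c' K y < K →
      p y ≠ z ∧ ¬ G.Adj y y' ∧ ¬ G.Adj (p y) y' ∧ ¬ G.Adj z y := by
    intro K y hy y' hy' hc hlt
    have hyK : y' ∈ TK K := by
      by_contra hcon
      rw [hc, hcN K y' hy' hcon] at hlt
      exact lt_irrefl _ hlt
    rw [hcD K y hy, hcT K y' hyK] at hc
    have hB := (hg1 K y' hyK).2
    rw [← hc] at hB
    refine ⟨fun hpz => (h.adj y hy).2.1 (hpz ▸ hz), ?_, h.far y hy y' (hTU y' hy'), ?_⟩
    · intro hadj
      exact hB (mem_image.2 ⟨y, mem_union_right _ (mem_inter.2 ⟨(mem_nb G _ _).2 hadj.symm, hy⟩),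
        rfl⟩)
    · intro hadj
      exact hB (mem_image.2 ⟨y, mem_union_left _ (mem_inter.2 ⟨(mem_nb G _ _).2 hadj, hy⟩), rfl⟩)
  refine ⟨p', c', ⟨?_, ?_, ?_, ?_, ?_⟩, hpD, hcD, hpT, ?_⟩
  · rw [disjoint_left]
    intro y hy hy'
    rw [mem_sdiff, mem_insert, not_or] at hy
    rcases mem_union.1 hy' with hy' | hy'
    · exact disjoint_left.1 h.disj hy.1 hy'
    · exact hy.2.2 (mem_inter.1 hy').1
  · intro y hy
    rcases mem_union.1 hy with hy | hy
    · rw [hpD y hy]
      obtain ⟨h1, h2, h3⟩ := h.adj y hy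
      refine ⟨h1, fun hc => h2 (mem_sdiff.1 hc).1, fun hc => ?_⟩
      rcases mem_union.1 hc with hc | hc
      · exact h3 hc
      · exact h2 (hTU _ hc)
    · rw [hpT y hy]
      refine ⟨hTz y hy, fun hc => ?_, fun hc => ?_⟩
      · exact (mem_sdiff.1 hc).2 (mem_insert_self _ _)
      · rcases mem_union.1 hc with hc | hc
        · exact hzD hc
        · exact G.loopless.irrefl z (hTz z hc)
  · intro y hy u hu
    rw [mem_sdiff, mem_insert, not_or] at hu
    rcases mem_union.1 hy with hy | hy
    · rw [hpD y hy]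
      exact h.far y hy u hu.1
    · rw [hpT y hy]
      exact fun hadj => hu.2.2 ((mem_nb G _ _).2 hadj)
  · intro y hy y' hy'
    rcases mem_union.1 hy with hy | hy <;> rcases mem_union.1 hy' with hy' | hy'
    · rw [hpD y hy, hpD y' hy']
      exact h.ind y hy y' hy'
    · rw [hpD y hy, hpT y' hy']
      exact h.far y hy z hz
    · rw [hpT y hy, hpD y' hy']
      exact fun hadj => h.far y' hy' z hz hadj.symm
    · rw [hpT y hy, hpT y' hy']
      exact G.loopless.irrefl z
  · intro K y hy y' hy' hne hc hlt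
    rcases mem_union.1 hy with hy | hy <;> rcases mem_union.1 hy' with hy' | hy'
    · rw [hpD y hy, hpD y' hy']
      rw [hcD K y hy, hcD K y' hy'] at hc
      rw [hcD K y hy] at hlt
      exact h.col K y hy y' hy' hne hc hlt
    · rw [hpD y hy, hpT y' hy']
      exact hno K y hy y' hy' hc hlt
    · rw [hpT y hy, hpD y' hy']
      obtain ⟨h1, h2, h3, h4⟩ := hno K y' hy' y hy hc.symm (hc ▸ hlt)
      exact ⟨h1.symm, fun hadj => h2 hadj.symm, h4, h3⟩
    · exfalso
      have hyK : y ∈ TK K := by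
        by_contra hcon
        rw [hcN K y hy hcon] at hlt
        exact lt_irrefl _ hlt
      have hyK' : y' ∈ TK K := by
        by_contra hcon
        rw [hc, hcN K y' hy' hcon] at hlt
        exact lt_irrefl _ hlt
      rw [hcT K y hyK, hcT K y' hyK'] at hc
      exact hg2 K y hyK y' hyK' hne hc
  · intro y hy K hK
    have hyK : y ∈ TK K := mem_filter.2 ⟨hy, hK⟩
    rw [hcT K y hyK]
    exact (hg1 K y hyK).1

end Pool.Agent.Helper60.SX
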